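import Pool.Agent.H37.CE.Ker

/-!
# [H92 CZ Pcv] THEOREM CCB: closures of subgroups which fix two distant vertices (for `Vtx H`)

`Pcv H k N m o pc`: `pc` maps the subgroups which fix two vertices at distance at least `k` to an ordered `G`-set `I` with least element
`o`; monotone, equivariant, invariant under passing to subgroups of finite index, with bounded chains; `pc B = o` only if `B` has at
most `N` elements.
-/

set_option autoImplicit false

namespace Pool.Agent.H37.CE

open Pool.Agent.H37.CC Pool.Agent.H37.CD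
open scoped Pointwise

/-- closures -/
structure Pcv {G I : Type} (H : Type) [Group G] [PartialOrder H] [Bas H] [MulAction G H] [BAct G H] [PartialOrder I] [MulAction G I]
    (k N m : ℕ) (o : I) (pc : Subgroup G → I) : Prop where
  bot : ∀ i, o ≤ i
  mono : ∀ B B' : Subgroup G, Fxd H k B → Fxd H k B' → B ≤ B' → pc B ≤ pc B'
  equi : ∀ (g : G) (B : Subgroup G), Fxd H k B → pc (B.map (MulAut.conj g).toMonoidHom) = g • pc B
  fin : ∀ B B' : Subgroup G, Fxd H k B → B' ≤ B → B'.relIndex B ≠ 0 → pc B' = pc B
  chain : ∀ B : ℕ → Subgroup G, (∀ i, Fxd H k (B i)) → (∀ i, B i ≤ B (i + 1)) → pc (B 0) ≠ o → ∃ i < m, pc (B i) = pc (B (i + 1))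
  small : ∀ B : Subgroup G, Fxd H k B → pc B = o → (B : Set G).encard ≤ N

variable {G H I : Type} [Group G] [PartialOrder H] [Bas H] [MulAction G H] [BAct G H] [PartialOrder I] [MulAction G I]
variable {k N m : ℕ} {o : I} {pc : Subgroup G → I}

/-- a subgroup with a finite index subgroup of closure `o` is small -/
theorem Pcv.small' (h : Pcv H k N m o pc) {K : Subgroup G} (hK : Fxd H k K) (h0 : pc K = o) (B : Subgroup G) (hB : Fxd H k B)
    (hi : ∃ B' ≤ B, B'.relIndex B ≠ 0 ∧ B' ≤ K) : (B : Set G).encard ≤ N := by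
  obtain ⟨B', h1, h2, h3⟩ := hi
  refine h.small B hB ?_
  rw [← h.fin B B' hB h1 h2]
  exact le_antisymm (by rw [← h0]; exact h.mono B' K (hB.mono h1) hK h3) (h.bot _)

end Pool.Agent.H37.CE
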