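import Pool.Agent.H92.CZ.Ind
import Pool.Agent.H92.CZ.Pcv
import Pool.Agent.H92.CX.Cor
import Pool.Agent.H37.PT.Defs

/-!
# [H92 CZ Cor] THEOREM CCB: the core in the form used by the induction, the theorem for pocsets
-/

set_option autoImplicit false

namespace Pool.Agent.H92.CZ

open scoped Pointwise
open Pool.Agent.H98.FJ Pool.Agent.H76.GT
open Pool.Agent.H37.CC (Poc st Crs IsVertex Dim PAct Bas BAct bs ds Vtx)
open Pool.Agent.H37.CE (Fxd Pcv)
open Pool.Agent.H92.CX Pool.Agent.H92.CY

/-- the core for `Vtx H` -/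
def CoreV (C : (G : Type) → [Group G] → Prop) : Prop :=
  ∀ (G H I : Type) [Group G] [PartialOrder H] [Bas H] [MulAction G H] [BAct G H] [PartialOrder I] [MulAction G I]
    (n k N m : ℕ) (o : I) (pc : Subgroup G → I), Group.FG G → 0 < n → Dim H n → Pcv H k N m o pc →
    (∀ B : Subgroup G, Fxd H k B → pc B ≠ o → C (MulAction.stabilizer G (pc B))) →
    (∀ y : Vtx H, C (MulAction.stabilizer G y)) → (∀ w : H, C (MulAction.stabilizer G w)) → C G

/-- the core -/
theorem core_of3 {C : (G : Type) → [Group G] → Prop} (core : CoreV C) : Core3 C := by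
  intro G H _ iP iQ _ _ x0 n hfg hd hD hs hv ha hst
  obtain ⟨k, N, m, I, _, _, o, pc, hp, hB3⟩ := ha
  have hfin : ∀ g : G, {h : H | g⁻¹ • h ∈ x0 ∧ h ∉ x0}.Finite := fun g => by
    rw [← st_image_sepd hd.vert g]
    exact (hd.fin g).image _
  let _ : Bas H :=
    { iQ with
      o := x0
      vtx := hd.vert
      fin_up := fun h => by
        obtain ⟨g, hg⟩ := hs h
        refine (hfin g).subset ?_
        rintro k ⟨h1, h2⟩
        exact ⟨hd.vert.up hg (psmul_le.2 h1), h2⟩ }
  have hB : BAct G H :=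
    { smul_le := fun g h k => PAct.smul_le g h k
      smul_st := fun g h => PAct.smul_st g h
      fin := hfin
      sep := hs }
  have hD' : Dim H (n + 1) := fun F hF => (hD F hF).trans n.le_succ
  have hvx : ∀ y : Vtx H, Vx x0 y.U := fun y => ⟨y.isV, y.fin⟩
  have hsm : ∀ (g : G) (y : Vtx H), (g • y).U = g • y.U := by
    intro g y
    ext h
    rw [Set.mem_smul_set_iff_inv_smul_mem]
    exact Iff.rfl
  have hst' : ∀ (g : G) (y : Vtx H), g • y = y ↔ g • y.U = y.U := by
    intro g y
    rw [← hsm]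
    constructor
    · intro h1
      rw [h1]
    · intro h1
      exact Vtx.ext' fun k => by rw [h1]
  have hff : ∀ B : Subgroup G, Fxd H k B → FF x0 k B := by
    rintro B ⟨y, z, h1, h2⟩
    exact ⟨y.U, z.U, hvx y, hvx z, h1, fun b hb => ⟨(hst' b y).1 (h2 b hb).1, (hst' b z).1 (h2 b hb).2⟩⟩
  have hp' : Pcv H k N m o pc :=
    { bot := hp.bot
      mono := fun B B' h1 h2 => hp.mono B B' (hff B h1) (hff B' h2)
      equi := fun g B h1 => hp.equi g B (hff B h1)
      fin := fun B B' h1 => hp.fin B B' (hff B h1)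
      chain := fun B h1 => hp.chain B fun i => hff _ (h1 i)
      small := fun B h1 => hp.small B (hff B h1) }
  have hv' : ∀ y : Vtx H, C (MulAction.stabilizer G y) := by
    intro y
    have h1 : MulAction.stabilizer G y = MulAction.stabilizer G y.U := by
      ext g
      exact hst' g y
    rw [h1]
    exact hv y.U (hvx y)
  exact core G H I (n + 1) k N m o pc hfg n.succ_pos hD' hp' (fun B h1 => hB3 B (hff B h1)) hv' hst

/-- the theorem for groups which act on pocsets -/
theorem pocset3 {C : (G : Type) → [Group G] → Prop} (hC : Inherits C) (core : CoreV C) (n : ℕ) : P3 C n :=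
  P3_all hC (core_of3 core) n

end Pool.Agent.H92.CZ
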