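import Pool.Agent.H37.CE.Fin
import Mathlib.GroupTheory.Commensurable

/-!
# [H92 CZ Com] THEOREM CCB: the form with commensurators

The ordered set is the set of the commensurability classes of subgroups, `[A] ≤ [B]` if `A ∩ B` has finite index in `A`. The least
element is the class of the finite subgroups. The stabiliser of `[B]` is the commensurator of `B`.
-/

set_option autoImplicit false

namespace Pool.Agent.H92.CZ

open Pool.Agent.H98.FJ Pool.Agent.H76.GT Pool.Agent.H37.MG
open Subgroup.Commensurable (commensurator)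
open scoped Pointwise

section

variable (G : Type) [Group G]

/-- commensurability -/
def csd : Setoid (Subgroup G) where
  r := Subgroup.Commensurable
  iseqv := Subgroup.Commensurable.equivalence

/-- the commensurability classes -/
def CCl : Type := Quotient (csd G)

variable {G}

/-- the class of a subgroup -/
def ccl (B : Subgroup G) : CCl G := Quotient.mk (csd G) B

theorem ccl_eq {A B : Subgroup G} : ccl A = ccl B ↔ Subgroup.Commensurable A B :=
  ⟨fun h => Quotient.exact h, fun h => Quotient.sound h⟩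

instance : PartialOrder (CCl G) where
  le := Quotient.lift₂ (fun A B : Subgroup G => B.relIndex A ≠ 0) (by
    intro A B A' B' h1 h2
    apply propext
    exact ⟨fun h => Subgroup.relIndex_ne_zero_trans (Subgroup.relIndex_ne_zero_trans h2.2 h) h1.1,
      fun h => Subgroup.relIndex_ne_zero_trans (Subgroup.relIndex_ne_zero_trans h2.1 h) h1.2⟩)
  le_refl := by
    rintro ⟨A⟩
    show A.relIndex A ≠ 0
    rw [Subgroup.relIndex_self]
    exact one_ne_zero
  le_trans := by
    rintro ⟨A⟩ ⟨B⟩ ⟨D⟩ h1 h2
    exact Subgroup.relIndex_ne_zero_trans h2 h1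
  le_antisymm := by
    rintro ⟨A⟩ ⟨B⟩ h1 h2
    exact Quotient.sound ⟨h2, h1⟩

theorem ccl_le {A B : Subgroup G} : ccl A ≤ ccl B ↔ B.relIndex A ≠ 0 := Iff.rfl

/-- conjugation -/
theorem csd_map (g : G) {A B : Subgroup G} (h : Subgroup.Commensurable A B) :
    Subgroup.Commensurable (A.map (MulAut.conj g).toMonoidHom) (B.map (MulAut.conj g).toMonoidHom) := by
  have hi : Function.Injective (MulAut.conj g).toMonoidHom := (MulAut.conj g).injective
  constructor
  · rw [Subgroup.relIndex_map_map_of_injective _ _ hi]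
    exact h.1
  · rw [Subgroup.relIndex_map_map_of_injective _ _ hi]
    exact h.2

instance : MulAction G (CCl G) where
  smul g := Quotient.lift (fun A : Subgroup G => ccl (A.map (MulAut.conj g).toMonoidHom)) (fun _ _ h => Quotient.sound (csd_map g h))
  one_smul := by
    rintro ⟨A⟩
    show ccl (A.map (MulAut.conj (1 : G)).toMonoidHom) = ccl A
    have e : (MulAut.conj (1 : G)).toMonoidHom = MonoidHom.id G := by
      ext x
      simp
    rw [e, Subgroup.map_id]
  mul_smul := by
    rintro g h ⟨A⟩
    show ccl (A.map (MulAut.conj (g * h)).toMonoidHom) =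
      ccl ((A.map (MulAut.conj h).toMonoidHom).map (MulAut.conj g).toMonoidHom)
    rw [Subgroup.map_map]
    congr 2
    ext x
    simp

theorem smul_ccl (g : G) (A : Subgroup G) : g • ccl A = ccl (A.map (MulAut.conj g).toMonoidHom) := rfl

theorem stab_ccl (A : Subgroup G) : MulAction.stabilizer G (ccl A) = commensurator A := by
  ext g
  rw [MulAction.mem_stabilizer_iff, smul_ccl, ccl_eq]
  exact Iff.rfl

theorem ccl_bot {A : Subgroup G} : ccl A = ccl (⊥ : Subgroup G) ↔ (A : Set G).Finite := by
  rw [ccl_eq]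
  constructor
  · rintro ⟨-, h⟩
    rw [Subgroup.relIndex_bot_left] at h
    exact Nat.finite_of_card_ne_zero h
  · intro h
    have h1 : Finite A := h
    refine ⟨?_, ?_⟩
    · rw [Subgroup.relIndex_bot_right]
      exact one_ne_zero
    · rw [Subgroup.relIndex_bot_left]
      exact Nat.card_pos.ne'

end

/-- **Theorem CCB**, commensurators -/
theorem comm_main {C : (G : Type) → [Group G] → Prop} (hC : Inherits C) (hT : Transfer C) (G : Type) [Group G]
    (h : ∀ K : Subgroup G, K.FG → ∃ (V : Type) (_ : MulAction K V) (X : SimpleGraph V) (n k N m : ℕ), Median X ∧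
      (∀ (g : K) (a b : V), X.Adj a b → X.Adj (g • a) (g • b)) ∧ (∀ f, ¬ IsCube X (n + 1) f) ∧
      (∀ v : V, C (MulAction.stabilizer K v)) ∧
      (∀ B : Subgroup K, FM X k B → (B : Set K).Finite → (B : Set K).encard ≤ N) ∧
      (∀ B : Subgroup K, FM X k B → (B : Set K).Infinite → C (commensurator B)) ∧
      ∀ B : ℕ → Subgroup K, (∀ i, FM X k (B i)) → (∀ i, B i ≤ B (i + 1)) → (B 0 : Set K).Infinite →
        ∃ i < m, (B i).relIndex (B (i + 1)) ≠ 0) : C G := by
  refine Pool.Agent.H37.CE.median_main3 hC hT G fun K hK => ?_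
  obtain ⟨V, _, X, n, k, N, m, hX, hadj, hn, hv, hN, hcom, hm⟩ := h K hK
  refine ⟨V, inferInstance, X, n, CCl K, inferInstance, inferInstance, k, N, m, ccl ⊥, ccl, hX, hadj, hn, hv,
    { bot := ?_
      mono := ?_
      equi := fun g B _ => (smul_ccl g B).symm
      fin := ?_
      chain := ?_
      small := ?_ }, ?_⟩
  · rintro ⟨A⟩
    show A.relIndex ⊥ ≠ 0
    rw [Subgroup.relIndex_bot_right]
    exact one_ne_zero
  · intro B B' _ _ hle
    rw [ccl_le, Subgroup.relIndex_eq_one.2 hle]
    exact one_ne_zero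
  · intro B B' _ hle hi
    rw [ccl_eq]
    refine ⟨hi, ?_⟩
    rw [Subgroup.relIndex_eq_one.2 hle]
    exact one_ne_zero
  · intro B hB hle h0
    obtain ⟨i, hi, h1⟩ := hm B hB hle (fun hf => h0 (ccl_bot.2 hf))
    refine ⟨i, hi, ccl_eq.2 ⟨h1, ?_⟩⟩
    rw [Subgroup.relIndex_eq_one.2 (hle i)]
    exact one_ne_zero
  · intro B hB h0
    exact hN B hB (ccl_bot.1 h0)
  · intro B hB h0
    rw [stab_ccl]
    exact hcom B hB fun hf => h0 (ccl_bot.2 hf)

end Pool.Agent.H92.CZ
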