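import Pool.Agent.H92.CZ.Pcv

/-!
# [H92 CZ Chn] THEOREM CCB: the chain of the local kernels

`chain3`: if the closure of the smallest local kernel at `y` is not `o` then one of the closures of radius `c + (2 m - 2 i - 1) t` is
the same for all points of the region at distance at most `t` from `y`. `base3`: if it is `o` then the closures of the local kernels
of larger radius at the points near `y` are `o`. Numerical lemmas.
-/

set_option autoImplicit false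

namespace Pool.Agent.H37.CE

open Pool.Agent.H37.CC Pool.Agent.H37.CD
open scoped Pointwise

section

variable {G H I : Type} [Group G] [PartialOrder H] [Bas H] [MulAction G H] [BAct G H] [PartialOrder I] [MulAction G I]
variable {k N m : ℕ} {o : I} {pc : Subgroup G → I}

/-- the radii of the local kernels -/
def rk (c t m i : ℕ) : ℕ := c + (2 * m - i) * t

theorem rk_anti {c t m i j : ℕ} (h : i ≤ j) : rk c t m j ≤ rk c t m i := by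
  unfold rk
  have h1 : (2 * m - j) * t ≤ (2 * m - i) * t := Nat.mul_le_mul_right _ (by omega)
  omega

theorem rk_step {c t m i : ℕ} (h : i < 2 * m) : rk c t m i = rk c t m (i + 1) + t := by
  unfold rk
  have e : 2 * m - i = (2 * m - (i + 1)) + 1 := by omega
  rw [e]
  ring

theorem rk_ge {c t m i : ℕ} : c ≤ rk c t m i := Nat.le_add_right _ _

theorem chain3 (hp : Pcv H k N m o pc) {P : Set (Vtx H) × Set H} (hP : Rgn P) {y z0 : Vtx H} (hy : y ∈ P.1) (hz0 : z0 ∈ P.1)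
    (hk : k ≤ ds y z0) {c t : ℕ} (hc : ds y z0 ≤ c) (h0 : pc (Ker G (rk c t m 0) P y) ≠ o) :
    ∃ i < m, ∀ z ∈ P.1, ds y z ≤ t → Fxd H k (Ker G (rk c t m (2 * i + 1)) P z) ∧
      pc (Ker G (rk c t m (2 * i + 1)) P z) = pc (Ker G (rk c t m (2 * i + 1)) P y) ∧
      pc (Ker G (rk c t m (2 * i + 1)) P z) ≠ o := by
  have hF : ∀ i, Fxd H k (Ker G (rk c t m i) P y) := fun i => Fxd_Ker hP hy hz0 (hc.trans rk_ge) hk
  obtain ⟨i, hi, he⟩ := hp.chain (fun i => Ker G (rk c t m (2 * i)) P y) (fun i => hF _)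
    (fun i => Ker_anti (rk_anti (by omega))) h0
  have he' : pc (Ker G (rk c t m (2 * i)) P y) = pc (Ker G (rk c t m (2 * i + 2)) P y) := he
  have hne : pc (Ker G (rk c t m (2 * i)) P y) ≠ o := by
    intro h1
    refine h0 (le_antisymm ?_ (hp.bot _))
    rw [← h1]
    exact hp.mono _ _ (hF _) (hF _) (Ker_anti (rk_anti (by omega)))
  have key : ∀ z ∈ P.1, ds y z ≤ t → Fxd H k (Ker G (rk c t m (2 * i + 1)) P z) ∧
      pc (Ker G (rk c t m (2 * i + 1)) P z) = pc (Ker G (rk c t m (2 * i)) P y) := by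
    intro z hz hd
    have h1 : Ker G (rk c t m (2 * i)) P y ≤ Ker G (rk c t m (2 * i + 1)) P z := by
      rw [rk_step (by omega)]
      exact Ker_le hP hy hz hd
    have h2 : Ker G (rk c t m (2 * i + 1)) P z ≤ Ker G (rk c t m (2 * i + 2)) P y := by
      rw [rk_step (i := 2 * i + 1) (by omega)]
      refine Ker_le hP hz hy ?_
      rwa [ds_comm]
    have h3 : Fxd H k (Ker G (rk c t m (2 * i + 1)) P z) := (hF _).mono h2
    refine ⟨h3, le_antisymm ?_ (hp.mono _ _ (hF _) h3 h1)⟩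
    rw [he']
    exact hp.mono _ _ h3 (hF _) h2
  have hyy : ds y y ≤ t := by
    unfold ds
    simp
  refine ⟨i, hi, fun z hz hd => ?_⟩
  obtain ⟨h1, h2⟩ := key z hz hd
  obtain ⟨-, h3⟩ := key y hy hyy
  exact ⟨h1, by rw [h2, h3], by rw [h2]; exact hne⟩

theorem num31 {n κ A K ee rad w m e : ℕ} (he : 1 ≤ e)
    (hw : κ * ((24 * n + 4) * A + 1) ^ 2 + (2 * m + 2) * (4 * A) + (κ + 3) * ((24 * n + 4) * A + 1) ^ e ≤ w)
    (h : (K + 8) * A + 2 * w + (64 * n + 64) * A + ee ≤ rad) :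
    κ * (4 * A + 1) ^ 2 ≤ w ∧ 2 * n * (4 * A) ≤ w ∧ (K + 5) * A + w + (4 * n + 4) * (4 * A) + A ≤ rad ∧
      κ * (2 * n * (4 * A) + 1) ^ 2 ≤ κ * ((24 * n + 4) * A + 1) ^ 2 ∧ κ * ((24 * n + 4) * A + 1) ^ 2 ≤ w ∧
      (κ * ((24 * n + 4) * A + 1) ^ 2 + (2 * m + 1) * (2 * A)) + (κ + 3) *
        (2 * n * (4 * A) + 8 * n * (2 * A) + 2 * (2 * A) + 1) ^ e ≤ w ∧
      (κ * ((24 * n + 4) * A + 1) ^ 2 + (2 * m + 1) * (2 * A)) + 2 * A + ee ≤ rad ∧ A + ee ≤ rad := by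
  obtain ⟨p, hp⟩ : ∃ p, p = n * A := ⟨_, rfl⟩
  obtain ⟨k3, hk3⟩ : ∃ k, k = K * A := ⟨_, rfl⟩
  obtain ⟨X, hX⟩ : ∃ X, X = (24 * n + 4) * A + 1 := ⟨_, rfl⟩
  have hX' : X = 24 * p + 4 * A + 1 := by rw [hX, hp]; ring
  rw [← hX] at hw
  obtain ⟨Y, hY⟩ : ∃ Y, Y = κ * X ^ 2 := ⟨_, rfl⟩
  obtain ⟨Z, hZ⟩ : ∃ Z, Z = X ^ e := ⟨_, rfl⟩
  have hXZ : X ≤ Z := by
    rw [hZ]
    calc X = X ^ 1 := (pow_one X).symm
      _ ≤ X ^ e := Nat.pow_le_pow_right (by omega) he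
  obtain ⟨k1, hk1⟩ : ∃ k, k = κ * Z := ⟨_, rfl⟩
  obtain ⟨q, hq⟩ : ∃ q, q = m * A := ⟨_, rfl⟩
  have e0 : (κ + 3) * Z = k1 + 3 * Z := by rw [hk1]; ring
  have e1 : (2 * m + 2) * (4 * A) = 8 * q + 8 * A := by rw [hq]; ring
  have e1' : (2 * m + 1) * (2 * A) = 4 * q + 2 * A := by rw [hq]; ring
  have e2 : κ * (4 * A + 1) ^ 2 ≤ Y := by
    rw [hY]
    exact Nat.mul_le_mul_left _ (Nat.pow_le_pow_left (by omega) 2)
  have e3 : 2 * n * (4 * A) = 8 * p := by rw [hp]; ring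
  have e3' : κ * (8 * p + 1) ^ 2 ≤ Y := by
    rw [hY]
    exact Nat.mul_le_mul_left _ (Nat.pow_le_pow_left (by omega) 2)
  have e4 : (K + 5) * A + w + (4 * n + 4) * (4 * A) + A = k3 + 5 * A + w + 16 * p + 16 * A + A := by rw [hk3, hp]; ring
  have e5 : (K + 8) * A + 2 * w + (64 * n + 64) * A + ee = k3 + 8 * A + 2 * w + 64 * p + 64 * A + ee := by
    rw [hk3, hp]; ring
  have e6 : 2 * n * (4 * A) + 8 * n * (2 * A) + 2 * (2 * A) + 1 = X := by rw [hX]; ring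
  rw [e5] at h
  rw [← hY, ← hZ, e0, e1] at hw
  rw [e6, ← hX, ← hY, ← hZ, e0, e1', e4, e3]
  refine ⟨?_, ?_, ?_, ?_, ?_, ?_, ?_, ?_⟩ <;> omega

theorem num32 {n κ A K ee rad w m e j : ℕ} (he : 1 ≤ e)
    (hw : κ * ((24 * n + 4) * A + 1) ^ 2 + (2 * m + 2) * (4 * A) + (κ + 3) * ((24 * n + 4) * A + 1) ^ e ≤ w) (hj : j < 2 * n)
    (h : (K + 8) * A + 2 * w + (64 * n + 64) * A + ee ≤ rad) :
    κ * (2 * n * (4 * A) + 4 * j * (2 * A) + 2 * (2 * A) + 1) ^ 2 ≤ κ * ((24 * n + 4) * A + 1) ^ 2 + (2 * m + 1) * (2 * A) ∧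
      (κ * ((24 * n + 4) * A + 1) ^ 2 + (2 * m + 1) * (2 * A)) +
        κ * (2 * n * (4 * A) + 4 * j * (2 * A) + 2 * (2 * A) + 1) ^ e ≤ w - 2 * j * (2 * A) - 2 * A ∧
      2 * n * (4 * A) + 4 * j * (2 * A) + 2 * (2 * A) ≤ w - 2 * j * (2 * A) - 2 * A ∧
      (w - 2 * j * (2 * A) - 2 * A) + (2 * n * (4 * A) + 4 * j * (2 * A) + 2 * (2 * A)) + 2 * A + ee ≤ rad := by
  obtain ⟨p, hp⟩ : ∃ p, p = n * A := ⟨_, rfl⟩
  obtain ⟨q, hq⟩ : ∃ q, q = j * A := ⟨_, rfl⟩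
  obtain ⟨k3, hk3⟩ : ∃ k, k = K * A := ⟨_, rfl⟩
  have hqp : q + A ≤ 2 * p := by
    rw [hq, hp]
    calc j * A + A = (j + 1) * A := by ring
      _ ≤ (2 * n) * A := Nat.mul_le_mul_right _ hj
      _ = 2 * (n * A) := by ring
  obtain ⟨X, hX⟩ : ∃ X, X = (24 * n + 4) * A + 1 := ⟨_, rfl⟩
  have hX' : X = 24 * p + 4 * A + 1 := by rw [hX, hp]; ring
  rw [← hX] at hw
  obtain ⟨Y, hY⟩ : ∃ Y, Y = κ * X ^ 2 := ⟨_, rfl⟩
  obtain ⟨Z, hZ⟩ : ∃ Z, Z = X ^ e := ⟨_, rfl⟩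
  have hXZ : X ≤ Z := by
    rw [hZ]
    calc X = X ^ 1 := (pow_one X).symm
      _ ≤ X ^ e := Nat.pow_le_pow_right (by omega) he
  obtain ⟨k1, hk1⟩ : ∃ k, k = κ * Z := ⟨_, rfl⟩
  obtain ⟨u, hu⟩ : ∃ u, u = m * A := ⟨_, rfl⟩
  have e0 : (κ + 3) * Z = k1 + 3 * Z := by rw [hk1]; ring
  have e1 : (2 * m + 2) * (4 * A) = 8 * u + 8 * A := by rw [hu]; ring
  have e1' : (2 * m + 1) * (2 * A) = 4 * u + 2 * A := by rw [hu]; ring
  have e3 : 2 * n * (4 * A) + 4 * j * (2 * A) + 2 * (2 * A) = 8 * p + 8 * q + 4 * A := by rw [hp, hq]; ring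
  have e4 : κ * (8 * p + 8 * q + 4 * A + 1) ^ 2 ≤ Y := by
    rw [hY]
    exact Nat.mul_le_mul_left _ (Nat.pow_le_pow_left (by omega) 2)
  have e4' : κ * (8 * p + 8 * q + 4 * A + 1) ^ e ≤ k1 := by
    rw [hk1, hZ]
    exact Nat.mul_le_mul_left _ (Nat.pow_le_pow_left (by omega) e)
  have e5 : (K + 8) * A + 2 * w + (64 * n + 64) * A + ee = k3 + 8 * A + 2 * w + 64 * p + 64 * A + ee := by
    rw [hk3, hp]; ring
  have e6 : 2 * j * (2 * A) = 4 * q := by rw [hq]; ring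
  rw [e5] at h
  rw [← hY, ← hZ, e0, e1] at hw
  rw [e3, e6, ← hX, ← hY, e1']
  refine ⟨?_, ?_, ?_, ?_⟩ <;> omega

theorem num33 {n κ A w m e : ℕ} (he : 1 ≤ e)
    (hw : κ * ((24 * n + 4) * A + 1) ^ 2 + (2 * m + 2) * (4 * A) + (κ + 3) * ((24 * n + 4) * A + 1) ^ e ≤ w) :
    2 * n * (4 * A) + 14 * n * (2 * A) + 5 * (2 * A) ≤ w ∧
      κ * (2 * n * (4 * A) + 8 * n * (2 * A) + 1) ^ 2 ≤ κ * ((24 * n + 4) * A + 1) ^ 2 + 2 * m * (2 * A) ∧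
      (κ * ((24 * n + 4) * A + 1) ^ 2 + 2 * m * (2 * A)) + κ * (2 * n * (4 * A) + 8 * n * (2 * A) + 1) ^ e ≤
        w - 4 * n * (2 * A) := by
  obtain ⟨p, hp⟩ : ∃ p, p = n * A := ⟨_, rfl⟩
  obtain ⟨X, hX⟩ : ∃ X, X = (24 * n + 4) * A + 1 := ⟨_, rfl⟩
  have hX' : X = 24 * p + 4 * A + 1 := by rw [hX, hp]; ring
  rw [← hX] at hw
  obtain ⟨Y, hY⟩ : ∃ Y, Y = κ * X ^ 2 := ⟨_, rfl⟩
  obtain ⟨Z, hZ⟩ : ∃ Z, Z = X ^ e := ⟨_, rfl⟩
  have hXZ : X ≤ Z := by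
    rw [hZ]
    calc X = X ^ 1 := (pow_one X).symm
      _ ≤ X ^ e := Nat.pow_le_pow_right (by omega) he
  obtain ⟨k1, hk1⟩ : ∃ k, k = κ * Z := ⟨_, rfl⟩
  obtain ⟨u, hu⟩ : ∃ u, u = m * A := ⟨_, rfl⟩
  have e0 : (κ + 3) * Z = k1 + 3 * Z := by rw [hk1]; ring
  have e1 : (2 * m + 2) * (4 * A) = 8 * u + 8 * A := by rw [hu]; ring
  have e1' : 2 * m * (2 * A) = 4 * u := by rw [hu]; ring
  have e2 : 2 * n * (4 * A) + 14 * n * (2 * A) + 5 * (2 * A) = 36 * p + 10 * A := by rw [hp]; ring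
  have e3 : 2 * n * (4 * A) + 8 * n * (2 * A) + 1 = 24 * p + 1 := by rw [hp]; ring
  have e3' : 4 * n * (2 * A) = 8 * p := by rw [hp]; ring
  have e4 : κ * (24 * p + 1) ^ 2 ≤ Y := by
    rw [hY]
    exact Nat.mul_le_mul_left _ (Nat.pow_le_pow_left (by omega) 2)
  have e4' : κ * (24 * p + 1) ^ e ≤ k1 := by
    rw [hk1, hZ]
    exact Nat.mul_le_mul_left _ (Nat.pow_le_pow_left (by omega) e)
  rw [← hY, ← hZ, e0, e1] at hw
  rw [e2, e3, e3', ← hX, ← hY, e1']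
  refine ⟨?_, ?_, ?_⟩ <;> omega

theorem base3 (hp : Pcv H k N m o pc) {P : Set (Vtx H) × Set H} (hP : Rgn P) {y : Vtx H} (hy : y ∈ P.1) {ρ t : ℕ}
    (hF : Fxd H k (Ker G ρ P y)) (h0 : pc (Ker G ρ P y) = o) {z : Vtx H} (hz : z ∈ P.1) (hd : ds y z ≤ t) :
    Fxd H k (Ker G (ρ + t) P z) ∧ pc (Ker G (ρ + t) P z) = o := by
  have h1 : Ker G (ρ + t) P z ≤ Ker G ρ P y := by
    refine Ker_le hP hz hy ?_
    rwa [ds_comm]
  have h2 := hF.mono h1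
  refine ⟨h2, le_antisymm ?_ (hp.bot _)⟩
  rw [← h0]
  exact hp.mono _ _ h2 hF h1

end

end Pool.Agent.H37.CE
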