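import Pool.Agent.H92.CZ.Cov
import Pool.Agent.H92.CZ.Cor
import Pool.Agent.H94.CM.Loc3

/-!
# [H92 CZ Core] THEOREM CCB: the core, from the local chapters and the constants
-/

set_option autoImplicit false

namespace Pool.Agent.H37.CE

open scoped Pointwise
open Pool.Agent.H98.FJ Pool.Agent.H37.PT Pool.Agent.H76.GT Pool.Agent.H37.CC Pool.Agent.H37.CD

/-- torsion: what is needed in addition to `commute3` -/
def Tor3 (n κ Q e : ℕ) : Prop :=
  ∀ (G H : Type) [Group G] [PartialOrder H] [Bas H] [MulAction G H] [BAct G H], Dim H n →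
    ∀ P : Set (Vtx H) × Set H, Rgn P → ∀ y ∈ P.1, ∀ b r ρ : ℕ, ρ + κ * (b + 1) ^ e ≤ r →
      (Ker G ρ P y : Set G).Finite →
      (∀ x ∈ Tb G b r P y, ∀ z ∈ Tb G b r P y, x ^ Q * z ^ Q = z ^ Q * x ^ Q) →
      ∀ a ∈ Aq G Q b r P y, ¬ Lx H a → IsOfFinOrder a

theorem loc3_of {n k N κ1 e : ℕ} (he : 2 ≤ e) (ht : Tor3 n κ1 (Pool.Agent.H94.CM.Q3 n N) e) (G H : Type) [Group G]
    [PartialOrder H] [Bas H] [MulAction G H] [BAct G H] (hd : Dim H n) :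
    Loc3 G H n k N (Pool.Agent.H94.CM.kap3 n k N + κ1) (Pool.Agent.H94.CM.Q3 n N) e where
  com := by
    intro P hP y hy b r ρ h1 h2 htm hlx
    have hp : (b + 1) ^ 2 ≤ (b + 1) ^ e := Nat.pow_le_pow_right (Nat.succ_pos b) he
    have h3 : Pool.Agent.H94.CM.kap3 n k N * (b + 1) ^ 2 ≤ ρ := (Nat.mul_le_mul_right _ (Nat.le_add_right _ _)).trans h1
    have h4 : ρ + Pool.Agent.H94.CM.kap3 n k N * (b + 1) ^ 2 ≤ r := by
      refine le_trans (Nat.add_le_add_left ?_ ρ) h2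
      exact Nat.mul_le_mul (Nat.le_add_right _ _) hp
    have h5 : ρ + κ1 * (b + 1) ^ e ≤ r :=
      le_trans (Nat.add_le_add_left (Nat.mul_le_mul_right _ (Nat.le_add_left _ _)) ρ) h2
    have hcom : ∀ x ∈ Tb G b r P y, ∀ z ∈ Tb G b r P y, x ^ Pool.Agent.H94.CM.Q3 n N * z ^ Pool.Agent.H94.CM.Q3 n N =
        z ^ Pool.Agent.H94.CM.Q3 n N * x ^ Pool.Agent.H94.CM.Q3 n N := fun x hx z hz =>
      Pool.Agent.H94.CM.commute3 hd hP hy h3 h4 htm hlx hx hz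
    refine ⟨hcom, ?_⟩
    obtain ⟨z, hz, hk, hdz⟩ := Pool.Agent.H94.CM.far3 (N := N) (k := k) hd hP hy (h3.trans (le_trans (Nat.le_add_right _ _) h4)) hlx
    have hF : Fxd H k (Ker G ρ P y) := Fxd_Ker hP hy hz (hdz.trans h3) hk
    have hfin : (Ker G ρ P y : Set G).Finite := by
      refine Set.finite_of_encard_le_coe (htm _ hF ⟨_, le_rfl, ?_, le_rfl⟩)
      rw [Subgroup.relIndex_self]
      exact one_ne_zero
    exact ht G H hd P hP y hy b r ρ h5 hfin hcom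
  far := by
    intro P hP y hy b r h1 hlx
    obtain ⟨z, hz, hk, hdz⟩ := Pool.Agent.H94.CM.far3 (N := N) (k := k) hd hP hy
      ((Nat.mul_le_mul_right _ (Nat.le_add_right _ _)).trans h1) hlx
    exact ⟨z, hz, hk, hdz.trans (Nat.mul_le_mul_right _ (Nat.le_add_right _ _))⟩
  ell := by
    intro P hP y hy b r hb h1
    exact Pool.Agent.H94.CM.ell3 hd hP hy hb h1

/-- the core, from torsion and the constants -/
theorem core_of_tor {C : (G : Type) → [Group G] → Prop} (hC : Inherits C) (hT : Transfer C)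
    (ht : ∀ n _k N : ℕ, ∃ κ1 e : ℕ, 2 ≤ e ∧ Tor3 n κ1 (Pool.Agent.H94.CM.Q3 n N) e)
    (hK : ∀ n R κ m e s : ℕ, ∃ ρ r K w : ℕ → ℕ, Con3 n R κ m e s ρ r K w) : Pool.Agent.H92.CZ.CoreV C := by
  intro G H I _ _ _ _ _ _ _ n k N m o pc hfg hn hd hp h3 hv hst
  obtain ⟨κ1, e, he, ht⟩ := ht n k N
  have hL := loc3_of (k := k) he ht G H hd
  refine transfer88 hT hfg (n := n) (N := n + ∑ t : Ti3 n m, NN3 n m t) (Nat.le_add_right _ _) hd fun F hF => ?_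
  obtain ⟨S, R, hFS, hS⟩ := exists_gn (H := H) hfg hF
  obtain ⟨ρ, r, K, w, hK⟩ := hK n R (Pool.Agent.H94.CM.kap3 n k N + κ1) m e S.ncard
  obtain ⟨U, hU⟩ := cover_gn3 (X := Pool.Agent.H88.CX.Xh H) hC hn hd hp h3 (class_of_ell hC hd hv) hst
    (Pool.Agent.H94.CM.Q3_pos n N) ((by omega : 1 ≤ e)) hL hS crd_crd hK (M := n + ∑ t : Ti3 n m, NN3 n m t) (by omega)
  exact ⟨U, hU.isOpen, hU.inv, hU.eq, hU.stab, hU.mult, fun g x => by
    obtain ⟨u, hu, h1⟩ := hU.wide g x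
    exact ⟨u, hu, fun s hs => h1 s (hFS hs)⟩⟩

end Pool.Agent.H37.CE
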