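import Pool.Agent.H92.CZ.Chn
import Pool.Agent.H92.CY.Cov
import Pool.Agent.H37.CE.Fam
import Pool.Agent.H37.CE.Glo

/-!
# [H92 CZ Cov] THEOREM CCB: the cover for a generating set

`Loc3`: what the local chapters give. `Con3`: the constants. `cover_gn3`: the cover; its order is bounded in terms of `n` and `m`.
-/

set_option autoImplicit false

namespace Pool.Agent.H37.CE

open scoped Pointwise
open Pool.Agent.H98.FJ Pool.Agent.H37.PT Pool.Agent.H76.GT Pool.Agent.H37.CC Pool.Agent.H37.CD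

/-- the families -/
abbrev Ti3 (n m : ℕ) : Type :=
  (Fin (n + 1) × Fin (n + 1) × Fin (n + 1)) ⊕ (((Par n × Fin (2 * n)) ⊕ (Par n × Fin m)) ⊕ Par n)

/-- the multiplicities -/
def NN3 (n m : ℕ) : Ti3 n m → ℕ :=
  Sum.elim (fun _ => 1) (Sum.elim (Sum.elim (fun _ => 1) fun _ => 1) fun _ => (8 * n + 9) ^ n)

/-- what the local chapters give -/
structure Loc3 (G H : Type) [Group G] [PartialOrder H] [Bas H] [MulAction G H] [BAct G H] (n k N κ Q e : ℕ) : Prop where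
  com : ∀ P : Set (Vtx H) × Set H, Rgn P → ∀ y ∈ P.1, ∀ b r ρ : ℕ, κ * (b + 1) ^ 2 ≤ ρ → ρ + κ * (b + 1) ^ e ≤ r →
    Tame G k N ρ P y → (∃ γ ∈ Tb G b r P y, Lx H γ) →
      (∀ x ∈ Tb G b r P y, ∀ z ∈ Tb G b r P y, x ^ Q * z ^ Q = z ^ Q * x ^ Q) ∧
        ∀ a ∈ Aq G Q b r P y, ¬ Lx H a → IsOfFinOrder a
  far : ∀ P : Set (Vtx H) × Set H, Rgn P → ∀ y ∈ P.1, ∀ b r : ℕ, κ * (b + 1) ^ 2 ≤ r → (∃ γ ∈ Tb G b r P y, Lx H γ) →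
    ∃ z ∈ P.1, k ≤ ds y z ∧ ds y z ≤ κ * (b + 1) ^ 2
  ell : ∀ P : Set (Vtx H) × Set H, Rgn P → ∀ y ∈ P.1, ∀ b r : ℕ, b ≤ r → (∀ γ ∈ Tb G (2 * n * b) r P y, ¬ Lx H γ) →
    Ell H (Subgroup.closure (Tb G b (r + (2 * n + 1) * b) P y))

/-- the constants -/
structure Con3 (n R κ m e s : ℕ) (ρ r K w : ℕ → ℕ) : Prop where
  mρ : Monotone ρ
  mr : Monotone r
  lt : ∀ ι ≤ n, r ι < ρ (ι + 1)
  w_ge : ∀ ι ≤ n, κ * ((24 * n + 4) * aa n R ρ ι + 1) ^ 2 + (2 * m + 2) * (4 * aa n R ρ ι) +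
    (κ + 3) * ((24 * n + 4) * aa n R ρ ι + 1) ^ e ≤ w ι
  r_ge : ∀ ι ≤ n, (K ι + 8) * aa n R ρ ι + 2 * w ι + (64 * n + 64) * aa n R ρ ι + 2 * n * R ≤ r ι
  K_ge : ∀ ι ≤ n, (100 * ((2 * aa n R ρ ι + 1) ^ n + 1) ^ 2 *
    (Nat.log 2 (Nat.log 2 (2 ^ lamf n R s ρ r (w ι + (2 * n + 2) * (4 * aa n R ρ ι))) + 2) + 1)) ^ 2 ≤ K ι

section

variable {G X H : Type} [Group G] [TopologicalSpace X] [MulAction G X] [PartialOrder H] [Bas H] [MulAction G H] [BAct G H]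

theorem cover_gn3 {C : (G : Type) → [Group G] → Prop} (hC : Inherits C) {I : Type} [PartialOrder I] [MulAction G I]
    {n k N m : ℕ} {o : I} {pc : Subgroup G → I} (hn : 0 < n) (hd : Dim H n) (hp : Pcv H k N m o pc)
    (h3 : ∀ B : Subgroup G, Fxd H k B → pc B ≠ o → C (MulAction.stabilizer G (pc B)))
    (hE : ∀ B : Subgroup G, Ell H B → C B) (hst : ∀ w : H, C (MulAction.stabilizer G w)) {κ Q e : ℕ} (hQ : 0 < Q) (he : 1 ≤ e)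
    (hL : Loc3 G H n k N κ Q e)
    {S : Set G} {R : ℕ} (hS : Gn G H S R) {c : X → H → ℝ} (hc : Crd G c)
    {ρ r K w : ℕ → ℕ} (hK : Con3 n R κ m e S.ncard ρ r K w) {M : ℕ} (hM : ∑ t : Ti3 n m, NN3 n m t ≤ M + 1) :
    ∃ U : Set (Set (G × X)), IsCover C M S U := by
  have hw : ∀ ι ≤ n, κ * ((24 * n + 4) * (n * ρ ι + 2 * n * R) + 1) ^ 2 + (2 * m + 2) * (4 * (n * ρ ι + 2 * n * R)) +
    (κ + 3) * ((24 * n + 4) * (n * ρ ι + 2 * n * R) + 1) ^ e ≤ w ι := hK.w_ge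
  have hK' : ∀ ι ≤ n, (K ι + 8) * (n * ρ ι + 2 * n * R) + 2 * w ι + (64 * n + 64) * (n * ρ ι + 2 * n * R) + 2 * n * R ≤ r ι :=
    hK.r_ge
  have num : ∀ ι ≤ n, n * ρ ι + 2 * n * R ≤ r ι := fun ι hι =>
    (Nat.le_add_right _ _).trans (num31 he (hw ι hι) (hK' ι hι)).2.2.2.2.2.2.2
  let F : Par n → G → X → (Set (Vtx H) × Set H) × Vtx H := fun p g x => FF n R ρ r S p.1 p.2.1 p.2.2.1 p.2.2.2 g (c x)
  let Rb : Par n → G → Set X := fun p g =>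
    Rb0 c n p.1 S (DD n R (r n + mm n ρ)) (tt n R (DD n R (r n + mm n ρ)) p.2.1) g
  have hF : ∀ p, Sys (Rb p) (F p) := fun p => sys_FF hS hc ρ r (Nat.lt_succ_iff.1 p.1.2) _ _ _
  let rkk : ℕ → ℕ → ℕ := fun ι i => rk (κ * ((24 * n + 4) * (n * ρ ι + 2 * n * R) + 1) ^ 2) (2 * (n * ρ ι + 2 * n * R)) m i
  let Cd : Ti3 n m → G → X → Prop := fun t g x => match t with
    | Sum.inl (j, i, k) =>
      (∀ s ∈ S, x ∈ Rb0 c n j S ((2 * k + 1) * R) (tt n R (DD n R (r n + mm n ρ)) i) (g * s)) ∧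
        (Frc0 n j S ((2 * k + 1) * R) (tt n R (DD n R (r n + mm n ρ)) i) g (c x)).Nonempty ∧
        ∀ s ∈ S, wl (Frc0 n j S ((2 * k + 1) * R) (tt n R (DD n R (r n + mm n ρ)) i) (g * s) (c x)) =
          wl (Frc0 n j S ((2 * k + 1) * R) (tt n R (DD n R (r n + mm n ρ)) i) g (c x))
    | Sum.inr (Sum.inl (Sum.inl (p, jj))) =>
      (∀ s ∈ S, x ∈ Rb p (g * s)) ∧ ∃ y, Same (F p) S (n * ρ p.2.2.2) (2 * n * R) (r p.2.2.2) g x y ∧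
        ∀ z ∈ (F p g x).1.1, ds y z ≤ 2 * (n * ρ p.2.2.2 + 2 * n * R) →
          ((∃ γ ∈ Tb G (2 * n * (4 * (n * ρ p.2.2.2 + 2 * n * R)) + 4 * jj * (2 * (n * ρ p.2.2.2 + 2 * n * R)) +
            2 * (2 * (n * ρ p.2.2.2 + 2 * n * R))) (w p.2.2.2 - 2 * jj * (2 * (n * ρ p.2.2.2 + 2 * n * R)) -
              2 * (n * ρ p.2.2.2 + 2 * n * R)) (F p g x).1 z, Lx H γ) ∧
            Tame G k N (rkk p.2.2.2 0 + 2 * (n * ρ p.2.2.2 + 2 * n * R)) (F p g x).1 z) ∧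
          (Ob Q (2 * n * (4 * (n * ρ p.2.2.2 + 2 * n * R)) + 4 * jj * (2 * (n * ρ p.2.2.2 + 2 * n * R)) +
            2 * (2 * (n * ρ p.2.2.2 + 2 * n * R))) (w p.2.2.2 - 2 * jj * (2 * (n * ρ p.2.2.2 + 2 * n * R)) -
              2 * (n * ρ p.2.2.2 + 2 * n * R)) (F p g x).1 z : Set G) =
          Ob Q (2 * n * (4 * (n * ρ p.2.2.2 + 2 * n * R)) + 4 * jj * (2 * (n * ρ p.2.2.2 + 2 * n * R)) +
            2 * (2 * (n * ρ p.2.2.2 + 2 * n * R))) (w p.2.2.2 - 2 * jj * (2 * (n * ρ p.2.2.2 + 2 * n * R)) -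
              2 * (n * ρ p.2.2.2 + 2 * n * R)) (F p g x).1 y
    | Sum.inr (Sum.inl (Sum.inr (p, i))) =>
      (∀ s ∈ S, x ∈ Rb p (g * s)) ∧ ∃ y, Same (F p) S (n * ρ p.2.2.2) (2 * n * R) (r p.2.2.2) g x y ∧
        pc (Ker G (rkk p.2.2.2 (2 * i + 1)) (F p g x).1 y) ≠ o ∧
        ∀ z ∈ (F p g x).1.1, ds y z ≤ 2 * (n * ρ p.2.2.2 + 2 * n * R) →
          Fxd H k (Ker G (rkk p.2.2.2 (2 * i + 1)) (F p g x).1 z) ∧
          pc (Ker G (rkk p.2.2.2 (2 * i + 1)) (F p g x).1 z) = pc (Ker G (rkk p.2.2.2 (2 * i + 1)) (F p g x).1 y)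
    | Sum.inr (Sum.inr p) =>
      (∀ s ∈ S, x ∈ Rb p (g * s)) ∧ ∃ y, Same (F p) S (n * ρ p.2.2.2) (2 * n * R) (r p.2.2.2) g x y ∧
        ∀ γ ∈ Tb G (2 * n * (4 * (n * ρ p.2.2.2 + 2 * n * R))) (w p.2.2.2) (F p g x).1 y, ¬ Lx H γ
  have hrk0 : ∀ ι, rkk ι 0 = κ * ((24 * n + 4) * (n * ρ ι + 2 * n * R) + 1) ^ 2 + 2 * m * (2 * (n * ρ ι + 2 * n * R)) := fun _ => rfl
  have hrk1 : ∀ ι, rkk ι 0 + 2 * (n * ρ ι + 2 * n * R) =
      κ * ((24 * n + 4) * (n * ρ ι + 2 * n * R) + 1) ^ 2 + (2 * m + 1) * (2 * (n * ρ ι + 2 * n * R)) := by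
    intro ι
    rw [hrk0]
    ring
  refine cover_of hC (NN3 n m) Cd ⟨1, hS.one⟩ ?_ ?_ hM
  · rintro (⟨j, i, k'⟩ | ⟨(⟨p, jj⟩ | ⟨p, i⟩) | p⟩)
    · exact frc_famW hC hst hS hc (Nat.lt_succ_iff.1 j.2) _ _
    · have hι : (p.2.2.2 : ℕ) ≤ n := Nat.lt_succ_iff.1 p.2.2.2.2
      obtain ⟨a1, a2, a3, a4⟩ := num32 he (hw p.2.2.2 hι) jj.2 (hK' p.2.2.2 hι)
      obtain ⟨-, -, -, -, -, -, a5, -⟩ := num31 he (hw p.2.2.2 hι) (hK' p.2.2.2 hι)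
      rw [← hrk1] at a1 a2 a5
      refine ob_famW3 (hF p) (fun P hP y hy hlx htm => ?_) S a3 a4 a5
      obtain ⟨b1, b2⟩ := hL.com P hP y hy _ _ _ a1 a2 htm hlx
      obtain ⟨γ, hγ, hγ'⟩ := hlx
      exact Pool.Agent.H1.CI.st_mem_class3 hC hd hst _ (Aq_comm b1) b2
        ⟨γ ^ Q, Subgroup.subset_closure ⟨γ, hγ, rfl⟩, (lx_pow hQ).2 hγ'⟩
    · have hι : (p.2.2.2 : ℕ) ≤ n := Nat.lt_succ_iff.1 p.2.2.2.2
      obtain ⟨-, -, -, -, -, -, a5, -⟩ := num31 he (hw p.2.2.2 hι) (hK' p.2.2.2 hι)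
      refine par_famW hC hp h3 (hF p) S ?_
      refine le_trans ?_ a5
      have b1 : rkk p.2.2.2 (2 * i + 1) ≤ rkk p.2.2.2 0 := rk_anti (Nat.zero_le _)
      rw [← hrk1]
      omega
    · have hι : (p.2.2.2 : ℕ) ≤ n := Nat.lt_succ_iff.1 p.2.2.2.2
      obtain ⟨a1, a2, a3, -⟩ := num31 he (hw p.2.2.2 hι) (hK' p.2.2.2 hι)
      refine net_famW hC hn hE (hF p)
        (bdd_FF hd hS hc hK.mρ hK.mr (Nat.lt_succ_iff.1 p.1.2) (Nat.lt_succ_iff.1 p.2.1.2) p.2.2.1.2 hι _ _)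
        (hK.K_ge p.2.2.2 hι) a2 (fun P hP y hy => hL.ell P hP y hy _ _ ?_) S a3
      refine le_trans ?_ a2
      exact Nat.le_mul_of_pos_left _ (by omega)
  · intro g x
    obtain ⟨j, hj, hrob, hgeo⟩ := geo_main hd hS hK.mρ num hK.lt hK.mr (hc.pt x)
    rcases hgeo g with ⟨i, hi, k', hk', hne, hwl⟩ | ⟨i, hi, q, hq, ι, hι, y, hy, hnear, hs⟩
    · exact ⟨Sum.inl (⟨j, Nat.lt_succ_of_le hj⟩, ⟨i, Nat.lt_succ_of_le hi⟩, ⟨k', Nat.lt_succ_of_le hk'⟩),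
        fun s _ h _ => hrob h, hne, hwl⟩
    · let p : Par n := (⟨j, Nat.lt_succ_of_le hj⟩, ⟨i, Nat.lt_succ_of_le hi⟩, ⟨q, hq⟩, ⟨ι, Nat.lt_succ_of_le hι⟩)
      have hsame : Same (F p) S (n * ρ ι) (2 * n * R) (r ι) g x y :=
        { mem := hy
          near := hnear
          cen := fun s h => (hs s h).1
          reg := fun s h => (hs s h).2.1
          cf := fun s h => (hs s h).2.2 }
      by_cases hfin : ∀ γ ∈ Tb G (2 * n * (4 * (n * ρ ι + 2 * n * R))) (w ι) (F p g x).1 y, ¬ Lx H γ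
      · exact ⟨Sum.inr (Sum.inr p), fun s _ h _ => hrob h, y, hsame, hfin⟩
      · push Not at hfin
        have hR : Rgn (F p g x).1 := (hF p).rgn g x
        have hy' : y ∈ (F p g x).1.1 := hy
        obtain ⟨a1, a2, a3, a4, a5, a6, a7, a8⟩ := num31 he (hw ι hι) (hK' ι hι)
        obtain ⟨z0, hz0, hk0, hd0⟩ := hL.far _ hR y hy' _ _ (a4.trans a5) hfin
        rcases par_or_tame hp hR hy' hz0 hk0 (ρ := rkk ι) (t := 2 * (n * ρ ι + 2 * n * R))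
          (fun i hi => (rk_step hi).ge) ((hd0.trans a4).trans rk_ge) with ⟨i, hi, b1, b2⟩ | htame
        · exact ⟨Sum.inr (Sum.inl (Sum.inr (p, ⟨i, hi⟩))), fun s _ h _ => hrob h, y, hsame, b1, b2⟩
        · obtain ⟨c1, c2, c3⟩ := num33 he (hw ι hι)
          rw [← hrk0] at c2 c3
          have hlx : ∃ γ ∈ Tb G (2 * n * (4 * (n * ρ ι + 2 * n * R)) + 8 * n * (2 * (n * ρ ι + 2 * n * R)))
              (w ι - 4 * n * (2 * (n * ρ ι + 2 * n * R))) (F p g x).1 y, Lx H γ := by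
            obtain ⟨γ, h1, h2⟩ := hfin
            exact ⟨γ, Tb_mono (Nat.le_add_right _ _) (Nat.sub_le _ _) h1, h2⟩
          obtain ⟨b1, b2⟩ := hL.com _ hR y hy' _ _ _ c2 c3 htame hlx
          obtain ⟨jj, hjj, hob⟩ := ob_const3 hd hQ hy' c1 b1 b2 hfin
          refine ⟨Sum.inr (Sum.inl (Sum.inl (p, ⟨jj, hjj⟩))), fun s _ h _ => hrob h, y, hsame, fun z hz hyz => ?_⟩
          obtain ⟨d1, d2⟩ := hob z hz hyz
          exact ⟨⟨d1, htame.move hR hy' hz hyz⟩, d2⟩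

end

end Pool.Agent.H37.CE
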