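import Pool.Agent.H92.CZ.Tor
import Pool.Agent.H37.CE.Cst

/-!
# [H92 CZ Fin] THEOREM CCB: the core and the theorem for pocsets
-/

set_option autoImplicit false

namespace Pool.Agent.H92.CZ

open scoped Pointwise
open Pool.Agent.H98.FJ Pool.Agent.H76.GT
open Pool.Agent.H37.CE (rr3 exists_con3 core_of_con)

theorem coreV {C : (G : Type) → [Group G] → Prop} (hC : Inherits C) (hT : Transfer C) : CoreV C := by
  refine core_of_con hC hT fun n R κ m e s => ?_
  obtain ⟨ρ, r, K, h1, h2, h3, -, h4⟩ := exists_con3 n R κ m e s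
  exact ⟨ρ, r, K, rr3 n R κ m e ρ,
    { mρ := h1
      mr := h2
      lt := h3
      w_ge := fun ι _ => le_rfl
      r_ge := fun ι hι => (h4 ι hι).1
      K_ge := fun ι hι => (h4 ι hι).2 }⟩

/-- the theorem for groups which act on pocsets, version 3 -/
theorem pocset_ccb {C : (G : Type) → [Group G] → Prop} (hC : Inherits C) (hT : Transfer C) (n : ℕ) : P3 C n :=
  pocset3 hC (coreV hC hT) n

end Pool.Agent.H92.CZ
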