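import Pool.Agent.H92.CZ.Pcs

/-!
# [H92 CZ Ind] THEOREM CCB: the induction over the dimension
-/

set_option autoImplicit false

namespace Pool.Agent.H92.CZ

open scoped Pointwise
open Pool.Agent.H98.FJ Pool.Agent.H76.GT
open Pool.Agent.H37.CC (Poc st Crs IsVertex Dim PAct)
open Pool.Agent.H92.CX Pool.Agent.H92.CY

variable {C : (G : Type) → [Group G] → Prop}

/-- the theorem for dimension at most `n` -/
def P3 (C : (G : Type) → [Group G] → Prop) (n : ℕ) : Prop :=
  ∀ (G H : Type) [Group G] [PartialOrder H] [Poc H] [MulAction G H] [PAct G H] (x0 : Set H), Dat G x0 → Dim H n →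
    (∀ y, Vx x0 y → C (MulAction.stabilizer G y)) → (∀ K : Subgroup G, K.FG → PcH C K x0) → C G

/-- the core: what the other chapters give -/
def Core3 (C : (G : Type) → [Group G] → Prop) : Prop :=
  ∀ (G H : Type) [Group G] [PartialOrder H] [Poc H] [MulAction G H] [PAct G H] (x0 : Set H) (n : ℕ), Group.FG G →
    Dat G x0 → Dim H n → (∀ h : H, ∃ g : G, g⁻¹ • h ∈ x0) → (∀ y, Vx x0 y → C (MulAction.stabilizer G y)) →
    PcH C G x0 → (∀ w : H, C (MulAction.stabilizer G w)) → C G

theorem P3_zero (hC : Inherits C) : P3 C 0 := by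
  intro G H _ _ _ _ _ x0 hd hD hv _
  have hE : IsEmpty H := ⟨fun h => by
    have h1 := hD {h} (by
      intro a ha b hb hne
      rw [Finset.mem_singleton] at ha hb
      exact absurd (ha.trans hb.symm) hne)
    simp at h1⟩
  have h1 := hv x0 ⟨hd.vert, by rw [Set.sdiff_self]; exact Set.finite_empty⟩
  have h2 : ∀ g : G, g ∈ MulAction.stabilizer G x0 := fun g => by
    rw [MulAction.mem_stabilizer_iff, Set.eq_empty_of_isEmpty x0, Set.smul_set_empty]
  let φ : G →* MulAction.stabilizer G x0 :=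
    { toFun := fun g => ⟨g, h2 g⟩
      map_one' := rfl
      map_mul' := fun _ _ => rfl }
  exact hC.of_injective φ (fun a b e => congrArg (fun t : MulAction.stabilizer G x0 => (t : G)) e) h1

/-- the stabiliser of a half-space, by the theorem for smaller dimension -/
theorem stab_mem3 (hC : Inherits C) {n : ℕ} (hn : P3 C n) {G H : Type} [Group G] [PartialOrder H] [Poc H] [MulAction G H]
    [PAct G H] {x0 : Set H} (hd : Dat G x0) (hD : Dim H (n + 1)) (hs : ∀ h : H, ∃ g : G, g⁻¹ • h ∈ x0)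
    (hv : ∀ y, Vx x0 y → C (MulAction.stabilizer G y)) (ha : PcH C G x0) (w : H) : C (MulAction.stabilizer G w) := by
  have hinv := inv_crs (G := G) w
  have hL := lf_crs hd hs w
  exact hn (MulAction.stabilizer G w) (Sb (MulAction.stabilizer G w) (fun h => Crs h w)) (sbx _ _ x0) (sbx_dat hd)
    (dim_crs hD) (fun y hy => stab_lft hC hL (hv _ (lft_vx hL hy))) (fun K _ => ((ha.sub hC _).lft hL).sub hC K)

/-- the induction step -/
theorem P3_succ (hC : Inherits C) (core : Core3 C) {n : ℕ} (hn : P3 C n) : P3 C (n + 1) := by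
  intro G H _ _ _ _ _ x0 hd hD hv ha
  refine Pool.Agent.H76.VC.of_fg hC G fun K hK => ?_
  have hinv := inv_sep (G := G) x0 K
  have hL := lf_sep hd K
  have hd' : Dat K (sbx K (Qs x0 K) x0) := sbx_dat hd
  have hD' : Dim (Sb K (Qs x0 K)) (n + 1) := dim_sb hD
  have hs : ∀ h : Sb K (Qs x0 K), ∃ g : K, g⁻¹ • h ∈ sbx K (Qs x0 K) x0 := by
    intro h
    obtain ⟨⟨g, hg, h1⟩, _⟩ := h.2
    exact ⟨⟨g, hg⟩, h1⟩
  have hv' : ∀ y, Vx (sbx K (Qs x0 K) x0) y → C (MulAction.stabilizer K y) := fun y hy =>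
    stab_lft hC hL (hv _ (lft_vx hL hy))
  have ha' : PcH C K (sbx K (Qs x0 K) x0) := (ha K hK).lft hL
  have hfg : Group.FG K := (Group.fg_iff_subgroup_fg K).2 hK
  exact core K (Sb K (Qs x0 K)) (sbx K (Qs x0 K) x0) (n + 1) hfg hd' hD' hs hv' ha'
    (fun w => stab_mem3 hC hn hd' hD' hs hv' ha' w)

/-- the theorem for pocsets -/
theorem P3_all (hC : Inherits C) (core : Core3 C) : ∀ n : ℕ, P3 C n
  | 0 => P3_zero hC
  | n + 1 => P3_succ hC core (P3_all hC core n)

end Pool.Agent.H92.CZ
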