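import Pool.Agent.H92.CY.Ind

/-!
# [H92 CZ Pcs] THEOREM CCB: closures of subgroups which fix two distant vertices

`FF x0 k`: the subgroups which fix two vertices at distance at least `k`. `Pcs`: a monotone equivariant map `pc` of these subgroups to an
ordered set `I` with least element `o`, invariant under passing to subgroups of finite index, with bounded chains, such that
`pc B = o` only if `B` has at most `N` elements. `PcH C G x0`: there is such a map, and the stabilisers of the values other than `o`
are in `C`.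
-/

set_option autoImplicit false

namespace Pool.Agent.H92.CZ

open scoped Pointwise
open Pool.Agent.H98.FJ Pool.Agent.H76.GT
open Pool.Agent.H37.CC (Poc st Crs IsVertex Dim PAct)
open Pool.Agent.H92.CX Pool.Agent.H92.CY

/-- subgroups which fix two vertices at distance at least `k` -/
def FF {G H : Type} [Group G] [PartialOrder H] [Poc H] [MulAction G H] (x0 : Set H) (k : ℕ) (B : Subgroup G) : Prop :=
  ∃ y z : Set H, Vx x0 y ∧ Vx x0 z ∧ k ≤ (z \ y).ncard ∧ ∀ b ∈ B, b • y = y ∧ b • z = z

/-- closures -/
structure Pcs {G H I : Type} [Group G] [PartialOrder H] [Poc H] [MulAction G H] [PartialOrder I] [MulAction G I] (x0 : Set H)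
    (k N m : ℕ) (o : I) (pc : Subgroup G → I) : Prop where
  bot : ∀ i, o ≤ i
  mono : ∀ B B' : Subgroup G, FF x0 k B → FF x0 k B' → B ≤ B' → pc B ≤ pc B'
  equi : ∀ (g : G) (B : Subgroup G), FF x0 k B → pc (B.map (MulAut.conj g).toMonoidHom) = g • pc B
  fin : ∀ B B' : Subgroup G, FF x0 k B → B' ≤ B → B'.relIndex B ≠ 0 → pc B' = pc B
  chain : ∀ B : ℕ → Subgroup G, (∀ i, FF x0 k (B i)) → (∀ i, B i ≤ B (i + 1)) → pc (B 0) ≠ o → ∃ i < m, pc (B i) = pc (B (i + 1))
  small : ∀ B : Subgroup G, FF x0 k B → pc B = o → (B : Set G).encard ≤ N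

/-- the hypothesis -/
def PcH (C : (G : Type) → [Group G] → Prop) (G : Type) {H : Type} [Group G] [PartialOrder H] [Poc H] [MulAction G H] (x0 : Set H) :
    Prop :=
  ∃ (k N m : ℕ) (I : Type) (_ : PartialOrder I) (_ : MulAction G I) (o : I) (pc : Subgroup G → I), Pcs x0 k N m o pc ∧
    ∀ B : Subgroup G, FF x0 k B → pc B ≠ o → C (MulAction.stabilizer G (pc B))

section

variable {G H : Type} [Group G] [PartialOrder H] [Poc H] [MulAction G H] {K : Subgroup G} {x0 : Set H} {k : ℕ}

theorem ff_map {B : Subgroup K} (h : FF (G := K) x0 k B) : FF x0 k (B.map K.subtype) := by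
  obtain ⟨y, z, hy, hz, hk, h1⟩ := h
  refine ⟨y, z, hy, hz, hk, ?_⟩
  rintro _ ⟨b, hb, rfl⟩
  exact h1 b hb

theorem map_conj (g : K) (B : Subgroup K) : (B.map (MulAut.conj g).toMonoidHom).map K.subtype =
    (B.map K.subtype).map (MulAut.conj (g : G)).toMonoidHom := by
  rw [Subgroup.map_map, Subgroup.map_map]
  congr 1

/-- restriction to a subgroup -/
theorem PcH.sub {C : (G : Type) → [Group G] → Prop} (hC : Inherits C) (h : PcH C G x0) (K : Subgroup G) : PcH C K x0 := by
  obtain ⟨k, N, m, I, _, _, o, pc, h1, h2⟩ := h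
  refine ⟨k, N, m, I, inferInstance, inferInstance, o, fun B => pc (B.map K.subtype), ?_, ?_⟩
  · refine ⟨h1.bot, ?_, ?_, ?_, ?_, ?_⟩
    · intro B B' hB hB' hle
      exact h1.mono _ _ (ff_map hB) (ff_map hB') (Subgroup.map_mono hle)
    · intro g B hB
      rw [map_conj]
      exact h1.equi g _ (ff_map hB)
    · intro B B' hB hle hi
      refine h1.fin _ _ (ff_map hB) (Subgroup.map_mono hle) ?_
      rwa [Subgroup.relIndex_map_map_of_injective _ _ K.subtype_injective]
    · intro B hB hle h0
      exact h1.chain (fun i => (B i).map K.subtype) (fun i => ff_map (hB i)) (fun i => Subgroup.map_mono (hle i)) h0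
    · intro B hB h0
      have h3 := h1.small _ (ff_map hB) h0
      rw [Subgroup.coe_map, K.subtype_injective.encard_image] at h3
      exact h3
  · intro B hB h0
    let φ : MulAction.stabilizer K (pc (B.map K.subtype)) →* MulAction.stabilizer G (pc (B.map K.subtype)) :=
      { toFun := fun g => ⟨((g : K) : G), g.2⟩
        map_one' := rfl
        map_mul' := fun _ _ => rfl }
    refine hC.of_injective φ (fun a b e => ?_) (h2 _ (ff_map hB) h0)
    have h3 : (φ a : G) = (φ b : G) := by rw [e]
    exact Subtype.ext (Subtype.ext h3)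

/-- restriction to an invariant set of half-spaces -/
theorem PcH.lft {C : (G : Type) → [Group G] → Prop} {Q : H → Prop} [Inv K Q] {A : Set H} (hL : Lf K Q A x0) (h : PcH C K x0) :
    PcH C K (sbx K Q x0) := by
  obtain ⟨k, N, m, I, _, _, o, pc, h1, h2⟩ := h
  have key : ∀ B : Subgroup K, FF (sbx K Q x0) k B → FF (G := K) x0 k B := by
    rintro B ⟨y, z, hy, hz, hk, h3⟩
    refine ⟨CY.lft K Q A y, CY.lft K Q A z, lft_vx hL hy, lft_vx hL hz, by rw [lft_ncard]; exact hk, fun b hb => ⟨?_, ?_⟩⟩
    · show (b : G) • CY.lft K Q A y = _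
      rw [lft_smul hL, (h3 b hb).1]
    · show (b : G) • CY.lft K Q A z = _
      rw [lft_smul hL, (h3 b hb).2]
  exact ⟨k, N, m, I, inferInstance, inferInstance, o, pc,
    { bot := h1.bot
      mono := fun B B' hB hB' => h1.mono B B' (key B hB) (key B' hB')
      equi := fun g B hB => h1.equi g B (key B hB)
      fin := fun B B' hB => h1.fin B B' (key B hB)
      chain := fun B hB => h1.chain B fun i => key _ (hB i)
      small := fun B hB => h1.small B (key B hB) }, fun B hB => h2 B (key B hB)⟩

end

end Pool.Agent.H92.CZ
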