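import Pool.Agent.H54.CB.Tors
import Pool.Agent.H92.CZ.Core

/-!
# [H92 CZ Tor] THEOREM CCB: torsion without a lower bound for the radius of the local kernel

The argument of `Pool.Agent.H54.CB.tors3`, with `Pool.Agent.H94.CM.fac3`.
-/

set_option autoImplicit false

namespace Pool.Agent.H37.CE

open scoped Pointwise
open Pool.Agent.H98.FJ Pool.Agent.H37.PT Pool.Agent.H76.GT Pool.Agent.H37.CC Pool.Agent.H37.CD Pool.Agent.H54.CB

section

variable {G H : Type} [Group G] [PartialOrder H] [Bas H] [MulAction G H] [BAct G H]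
variable {P : Set (Vtx H) × Set H} {y : Vtx H} {n b r ρ : ℕ}

theorem tors4 (hd : Dim H n) (hP : Rgn P) (hy : y ∈ P.1) {Q : ℕ}
    (hab : ∀ x ∈ Tb G b r P y, ∀ z ∈ Tb G b r P y, x ^ Q * z ^ Q = z ^ Q * x ^ Q) (hf : (Ker G ρ P y : Set G).Finite)
    (hr : ρ + (n + n.factorial + 1) * (Lf (2 * n) (Q * b) * Q * b) + b ≤ r) :
    ∀ a ∈ Aq G Q b r P y, ¬ Lx H a → IsOfFinOrder a := by
  obtain ⟨τ, h1, h2, h3⟩ := Pool.Agent.H1.CI.exists_tau3 (H := H) hd y (Aq G Q b r P y) (Aq_comm hab)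
  obtain ⟨M, hM⟩ : ∃ M, M = Lf (2 * n) (Q * b) * Q * b := ⟨_, rfl⟩
  rw [← hM] at hr
  have e1 : (n + n.factorial + 1) * M = (n + n.factorial) * M + M := by ring
  have hkl : ∀ a ∈ Aq G Q b r P y, ¬ Lx H a → τ a = 0 := by
    intro a ha hx
    obtain ⟨D, hD⟩ : ∃ D, ∀ m : ℕ, ds y (a ^ m • y) ≤ D := by
      unfold Lx at hx
      rw [not_not] at hx
      obtain ⟨D, hD⟩ := hx
      refine ⟨ds y (bs : Vtx H) + D + ds (bs : Vtx H) y, fun m => ?_⟩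
      have h4 := hD (a ^ m) ⟨(m : ℤ), zpow_natCast a m⟩
      have h5 := Pool.Agent.H1.CG.ds_tri' y (bs : Vtx H) (a ^ m • y)
      have h6 := Pool.Agent.H1.CG.ds_tri' (bs : Vtx H) (a ^ m • (bs : Vtx H)) (a ^ m • y)
      have h7 : ds (a ^ m • (bs : Vtx H)) (a ^ m • y) = ds (bs : Vtx H) y := Pool.Agent.H1.CG.ds_smul' G _ _ _
      omega
    funext i
    have h4 : ∀ m : ℕ, m * |τ a i| ≤ D := by
      intro m
      have h5 := h3 (a ^ m) i
      rw [Pool.Agent.H54.CB.tau_pow (A := Aq G Q b r P y) h1 ha, Pi.smul_apply, nsmul_eq_mul, abs_mul, Nat.abs_cast] at h5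
      exact h5.trans (by exact_mod_cast hD m)
    by_contra h5
    have h6 : 0 < |τ a i| := abs_pos.2 h5
    have h7 := h4 (D + 1)
    push_cast at h7
    nlinarith
  intro a ha hx
  refine tor_ker (2 * n) (Q * b) {x : G | ∃ γ ∈ Tb G b r P y, x = γ ^ Q} (Aq_comm hab) τ h1 ?_ ?_ a ha (hkl a ha hx)
  · rintro _ ⟨γ, hγ, rfl⟩ i
    have h4 := h3 (γ ^ Q) i
    have h5 := Pool.Agent.H1.CI.ds_pow_le γ y Q
    have h6 : ds y (γ • y) ≤ b := hγ.2.1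
    have h7 : ds y (γ ^ Q • y) ≤ Q * b := h5.trans (Nat.mul_le_mul_left Q h6)
    have h8 : |τ (γ ^ Q) i| ≤ ((Q * b : ℕ) : ℤ) := h4.trans (by exact_mod_cast h7)
    rw [Int.abs_eq_natAbs] at h8
    exact_mod_cast h8
  · intro x hx h4
    have h5 : x ∈ Tb G M (r - M - b) P y := by
      rw [hM]
      refine pw_Tb hy ?_ hx
      rw [← hM]
      omega
    have h6 := Pool.Agent.H94.CM.fac3 hd hP hy (ρ := ρ) (by omega) h5 (h2 x hx.mem h4)
    have h7 : Finite (Ker G ρ P y) := hf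
    have h8 : IsOfFinOrder (⟨x ^ n.factorial, h6⟩ : Ker G ρ P y) := isOfFinOrder_of_finite _
    have h9 : IsOfFinOrder (x ^ n.factorial) := (Submonoid.isOfFinOrder_coe (H := (Ker G ρ P y).toSubmonoid)).2 h8
    exact (isOfFinOrder_pow.1 h9).resolve_right n.factorial_ne_zero

end

theorem tor4 (n Q : ℕ) : Tor3 n (2 * Kt n Q) Q (2 ^ (2 * n) + 1) := by
  intro G H _ _ _ _ _ hd P hP y hy b r ρ hr hf hab
  refine tors4 hd hP hy hab hf (le_trans ?_ hr)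
  obtain ⟨h1, h2⟩ := Kt_le n Q b
  have h3 : (b + 1) ^ (2 ^ (2 * n)) ≤ (b + 1) ^ (2 ^ (2 * n) + 1) := Nat.pow_le_pow_right (Nat.succ_pos b) (Nat.le_succ _)
  have h4 : Kt n Q * (b + 1) ^ (2 ^ (2 * n)) ≤ Kt n Q * (b + 1) ^ (2 ^ (2 * n) + 1) := Nat.mul_le_mul_left _ h3
  obtain ⟨M, hM⟩ : ∃ M, M = Lf (2 * n) (Q * b) * Q * b := ⟨_, rfl⟩
  rw [← hM] at h1 h2 ⊢
  have e1 : (n + n.factorial + 1) * M = n.factorial * M + (n + 1) * M := by ring
  have e2 : 2 * Kt n Q * (b + 1) ^ (2 ^ (2 * n) + 1) =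
      Kt n Q * (b + 1) ^ (2 ^ (2 * n) + 1) + Kt n Q * (b + 1) ^ (2 ^ (2 * n) + 1) := by ring
  rw [e1, e2]
  omega

/-- the core, from the constants -/
theorem core_of_con {C : (G : Type) → [Group G] → Prop} (hC : Inherits C) (hT : Transfer C)
    (hK : ∀ n R κ m e s : ℕ, ∃ ρ r K w : ℕ → ℕ, Con3 n R κ m e s ρ r K w) : Pool.Agent.H92.CZ.CoreV C := by
  refine core_of_tor hC hT (fun n k N => ⟨2 * Kt n (Pool.Agent.H94.CM.Q3 n N), 2 ^ (2 * n) + 1, ?_, tor4 n _⟩) hK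
  have : 1 ≤ 2 ^ (2 * n) := Nat.one_le_two_pow
  omega

end Pool.Agent.H37.CE
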